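import Pool.Agent.H466.HP.Stm4

/-!
# Lipschitz bound for `P` at a regular point (statement `S_LIP` by helper466)
-/

set_option autoImplicit false

namespace Pool.Agent.H385.HP

open Complex MeasureTheory Set Filter Topology Metric
open scoped ComplexConjugate
open Pool.Agent.H466.HF Pool.Agent.H466.LD Pool.Agent.H466.HP
open Pool.Agent.H862.VK (Yz)

lemma P_diff {z : ℂ} (h : Yz z ≠ 0) : DifferentiableAt ℂ P z := by
  have h0 : Differentiable ℂ Yz := fun z => Pool.Agent.H862.VK.Yz_diff z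
  have h1 : DifferentiableAt ℂ (deriv Yz) z := (h0.analyticAt z).deriv.differentiableAt
  have h2 : DifferentiableAt ℂ Yz z := h0 z
  have e : P = fun z => deriv Yz z / Yz z := by
    funext z
    unfold P
    rw [logDeriv_apply]
  rw [e]
  exact h1.div h2 h

lemma log_close {T t : ℝ} (hT : 10 ≤ T) (h1 : T / 2 ≤ t) (h2 : t ≤ 4 * T) :
    |Real.log t / 2 - Real.log T / 2| ≤ 1 := by
  have hl2 := Real.log_two_lt_d9
  have a1 : Real.log t ≤ Real.log T + 2 * Real.log 2 := by
    have h3 : Real.log t ≤ Real.log (4 * T) := Real.log_le_log (by linarith) h2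
    rw [show (4:ℝ) * T = 2 ^ 2 * T by norm_num, Real.log_mul (by norm_num) (by linarith),
      Real.log_pow] at h3
    push_cast at h3
    linarith
  have a2 : Real.log T ≤ Real.log t + Real.log 2 := by
    have h3 : Real.log T ≤ Real.log (2 * t) := Real.log_le_log (by linarith) (by linarith)
    rw [Real.log_mul (by norm_num) (by linarith)] at h3
    linarith
  rw [abs_le]
  constructor <;> linarith

/-- the bound for `P` on the large cone -/
lemma P_bound {T t y0 κ K Γ μ0 B : ℝ} (R : Reg1 t y0 64 κ (Real.log T))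
    (D : Far t (Real.log t / 2) Γ K μ0) (hc : |Real.log t / 2 - Real.log T / 2| ≤ 1)
    (hB : K * (1 + 65 * B) + 1 ≤ κ * Real.log T) {w : ℂ} (h1 : y0 ≤ w.re) (h2 : w.re ≤ B)
    (h3 : |w.im - t| ≤ 64 * w.re) : ‖P w - (Real.log T / 2 : ℝ)‖ ≤ κ * Real.log T := by
  rcases le_or_gt w.re 4 with h | h
  · exact R.2 w ⟨h1, h, h3⟩
  · have h4 := D.dP w (by linarith)
    have hK := D.K1
    have e : P w - ((Real.log T / 2 : ℝ) : ℂ) =
        (P w - ((Real.log t / 2 : ℝ) : ℂ)) +
          ((Real.log t / 2 - Real.log T / 2 : ℝ) : ℂ) := by push_cast; ring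
    rw [e]
    refine (norm_add_le _ _).trans ?_
    rw [Complex.norm_real, Real.norm_eq_abs]
    have h5 : K * (1 + w.re + |w.im - t|) ≤ K * (1 + 65 * B) :=
      mul_le_mul_of_nonneg_left (by linarith) (by linarith)
    linarith

theorem lip : S_LIP := by
  intro δ κ1 hδ hκ1
  obtain ⟨A, K, μ0, Q, T1, hK, hμ0, hT1, -, hfar⟩ := far_data
  set κ : ℝ := κ1 / (32 * (1 + δ)) with hκ
  have hκ0 : 0 < κ := by positivity
  have hκκ : κ ≤ κ1 := by
    rw [hκ, div_le_iff₀ (by positivity)]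
    nlinarith
  set B : ℝ := 2 * δ + 5 with hB
  set M1 : ℝ := (K * (1 + 65 * B) + 1) / κ with hM1
  set M2 : ℝ := 4 * δ * (3 * K + 1) / κ1 with hM2
  refine ⟨κ, max (2 * T1) (Real.exp (max M1 M2)), hκ0, hκκ,
    le_trans (by linarith) (le_max_left _ _), ?_⟩
  intro T t y0 s lam hT ht1 ht2 hy0 hR hs1 hs2 hlam hl1 hl2 z hz1 hz2
  have hTT1 : 2 * T1 ≤ T := (le_max_left _ _).trans hT
  have hT10 : 10 ≤ T := by linarith
  have hLM : max M1 M2 ≤ Real.log T := by
    rw [Real.le_log_iff_exp_le (by linarith)]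
    exact (le_max_right _ _).trans hT
  set L := Real.log T with hLdef
  have hLM1 : K * (1 + 65 * B) + 1 ≤ κ * L := by
    have h := (le_max_left M1 M2).trans hLM
    rw [hM1, div_le_iff₀ hκ0] at h
    linarith
  have hLM2 : 4 * δ * (3 * K + 1) ≤ κ1 * L := by
    have h := (le_max_right M1 M2).trans hLM
    rw [hM2, div_le_iff₀ hκ1] at h
    linarith
  have hL0 : 0 < L := by
    rw [hLdef]
    exact Real.log_pos (by linarith)
  have D := (hfar t t (by linarith) le_rfl (by linarith)).2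
  have hc := log_close hT10 ht1 ht2
  have hs0 : 0 < s := by linarith
  have hbd : ∀ w : ℂ, y0 ≤ w.re → w.re ≤ B → |w.im - t| ≤ 64 * w.re →
      ‖P w - (L / 2 : ℝ)‖ ≤ κ * L := fun w a b c => P_bound hR D hc hLM1 a b c
  have hne : ∀ w : ℂ, y0 ≤ w.re → |w.im - t| ≤ 64 * w.re → Yz w ≠ 0 := by
    intro w a b
    rcases le_or_gt w.re 4 with h | h
    · exact cone_ne hy0 (by norm_num) hR.1 (x1 := 4) ⟨a, h, b⟩
    · exact D.ne w (by linarith)
  -- the bound for the derivative
  set ρ : ℝ := s / (32 * (1 + δ)) with hρ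
  have hρ0 : 0 < ρ := by positivity
  have hρ1 : ρ ≤ s / 32 := by
    rw [hρ, div_le_div_iff₀ (by positivity) (by norm_num)]
    nlinarith
  have hρ2 : ρ ≤ 1 := by
    rw [hρ, div_le_one (by positivity)]
    nlinarith
  have hder : ∀ w : ℂ, s / 16 ≤ w.re → w.re ≤ 2 * (δ + 2) → |w.im - t| ≤ 5 / 4 * s →
      ‖deriv P w‖ ≤ κ1 / lam := by
    intro w hw1 hw2 hw3
    have hball : ∀ u ∈ closedBall w ρ, y0 ≤ u.re ∧ u.re ≤ B ∧ |u.im - t| ≤ 64 * u.re := by
      intro u hu
      rw [mem_closedBall, Complex.dist_eq] at hu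
      have hre := (Complex.abs_re_le_norm (u - w)).trans hu
      have him := (Complex.abs_im_le_norm (u - w)).trans hu
      rw [Complex.sub_re] at hre
      rw [Complex.sub_im] at him
      have hre' := abs_le.1 hre
      have e : u.im - t = (u.im - w.im) + (w.im - t) := by ring
      have him' : |u.im - t| ≤ ρ + 5 / 4 * s := by
        rw [e]
        exact (abs_add_le _ _).trans (add_le_add him hw3)
      refine ⟨by linarith [hre'.1], by linarith [hre'.2], ?_⟩
      linarith [hre'.1]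
    have hd : DifferentiableOn ℂ (fun u => P u - ((L / 2 : ℝ) : ℂ)) (closedBall w ρ) := by
      intro u hu
      obtain ⟨a, -, b⟩ := hball u hu
      exact ((P_diff (hne u a b)).sub_const _).differentiableWithinAt
    have h1 := Complex.norm_deriv_le_of_forall_mem_sphere_norm_le hρ0
      (hd.diffContOnCl_ball subset_rfl) (C := κ * L) (fun u hu => by
        obtain ⟨a, b, c⟩ := hball u (sphere_subset_closedBall hu)
        exact hbd u a b c)
    rw [deriv_sub_const] at h1
    refine h1.trans ?_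
    rw [hρ, hκ, div_le_div_iff₀ (by positivity) hlam]
    have e : κ1 / (32 * (1 + δ)) * L * lam = κ1 * (lam * L) / (32 * (1 + δ)) := by ring
    rw [e, mul_div_assoc']
    gcongr
  have hconv : Convex ℝ {w : ℂ | s / 16 ≤ w.re ∧ w.re ≤ 2 * (δ + 2) ∧ |w.im - t| ≤ 5 / 4 * s} := by
    have e : {w : ℂ | s / 16 ≤ w.re ∧ w.re ≤ 2 * (δ + 2) ∧ |w.im - t| ≤ 5 / 4 * s} =
        ({w : ℂ | s / 16 ≤ w.re} ∩ {w : ℂ | w.re ≤ 2 * (δ + 2)}) ∩
          ({w : ℂ | t - 5 / 4 * s ≤ w.im} ∩ {w : ℂ | w.im ≤ t + 5 / 4 * s}) := by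
      ext w
      simp only [mem_ofPred_eq, mem_inter_iff, abs_le]
      constructor
      · rintro ⟨a, b, c, d⟩
        exact ⟨⟨a, b⟩, by linarith, by linarith⟩
      · rintro ⟨⟨a, b⟩, c, d⟩
        exact ⟨a, b, by linarith, by linarith⟩
    rw [e]
    exact ((convex_halfSpace_re_ge _).inter (convex_halfSpace_re_le _)).inter
      ((convex_halfSpace_im_ge _).inter (convex_halfSpace_im_le _))
  have hcone : ∀ w : ℂ, s / 16 ≤ w.re → |w.im - t| ≤ 5 / 4 * s →
      y0 ≤ w.re ∧ |w.im - t| ≤ 64 * w.re := by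
    intro w a b
    constructor <;> linarith
  obtain ⟨hz3, hz4⟩ := hcone z hz1 hz2
  refine ⟨hne z hz3 hz4, fun h => hbd z hz3 (by linarith) hz4, fun z' hz1' hz2' hz3' => ?_⟩
  rcases le_or_gt z.re (2 * (δ + 2)) with hz | hz
  · have h1 := hconv.norm_image_sub_le_of_norm_deriv_le (f := P) (C := κ1 / lam)
      (fun w hw => P_diff (hne w (hcone w hw.1 hw.2.2).1 (hcone w hw.1 hw.2.2).2))
      (fun w hw => hder w hw.1 hw.2.1 hw.2.2)
      (x := z') (y := z) ⟨hz1', by linarith, hz3'⟩ ⟨hz1, hz, hz2⟩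
    refine h1.trans (le_of_eq ?_)
    ring
  · obtain ⟨hz4', hz5'⟩ := hcone z' hz1' hz3'
    have hz' := hbd z' hz4' (by linarith) hz5'
    have hdz := D.dP z (by linarith)
    have hX : z.re / 2 ≤ ‖z - z'‖ := by
      have h1 := (le_abs_self _).trans (Complex.abs_re_le_norm (z - z'))
      rw [Complex.sub_re] at h1
      linarith
    have hPz : ‖P z - P z'‖ ≤ K * (1 + z.re + |z.im - t|) + 1 + κ * L := by
      have e : P z - P z' = (P z - ((Real.log t / 2 : ℝ) : ℂ)) +
          (((Real.log t / 2 - L / 2 : ℝ) : ℂ) - (P z' - ((L / 2 : ℝ) : ℂ))) := by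
        push_cast; ring
      rw [e]
      refine (norm_add_le _ _).trans ?_
      have h2 := norm_sub_le (((Real.log t / 2 - L / 2 : ℝ) : ℂ)) (P z' - ((L / 2 : ℝ) : ℂ))
      rw [Complex.norm_real, Real.norm_eq_abs] at h2
      linarith
    refine hPz.trans ?_
    have h1 : κ1 * (z.re / 2) * (L / δ) ≤ κ1 * ‖z - z'‖ / lam := by
      have h3 : L / δ ≤ 1 / lam := by
        rw [div_le_div_iff₀ hδ hlam]
        linarith
      have h4 : 0 ≤ L / δ := by positivity
      calc κ1 * (z.re / 2) * (L / δ) ≤ κ1 * ‖z - z'‖ * (L / δ) := by gcongr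
        _ ≤ κ1 * ‖z - z'‖ * (1 / lam) := by gcongr
        _ = _ := by ring
    refine le_trans ?_ h1
    have hX4 : 4 ≤ z.re := by linarith
    have h2 : K * (1 + z.re + |z.im - t|) ≤ 3 * K * z.re := by
      have h3 : 1 + z.re + |z.im - t| ≤ 3 * z.re := by linarith
      nlinarith
    have h3 : (3 * K + 1) * z.re ≤ κ1 * (z.re / 4) * (L / δ) := by
      have e : κ1 * (z.re / 4) * (L / δ) = (κ1 * L) * z.re / (4 * δ) := by
        field_simp
      rw [e, le_div_iff₀ (by positivity)]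
      have h5 := mul_le_mul_of_nonneg_right hLM2 (by linarith : 0 ≤ z.re)
      linarith
    have h4 : κ * L ≤ κ1 * (z.re / 4) * (L / δ) := by
      have e : κ1 * (z.re / 4) * (L / δ) = (κ1 * z.re / (4 * δ)) * L := by
        field_simp
      rw [e]
      apply mul_le_mul_of_nonneg_right _ hL0.le
      rw [hκ, div_le_div_iff₀ (by positivity) (by positivity)]
      have h5 : κ1 * 4 * (32 * (1 + δ)) ≤ κ1 * z.re * (32 * (1 + δ)) := by gcongr
      have h6 : 0 ≤ κ1 * δ := by positivity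
      linarith
    have e2 : κ1 * (z.re / 2) * (L / δ) = κ1 * (z.re / 4) * (L / δ) + κ1 * (z.re / 4) * (L / δ) := by
      ring
    rw [e2]
    linarith

end Pool.Agent.H385.HP
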